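import Mathlib
import Pool.Agent.Q163.LE.Tr
import Pool.Agent.R473.FV.Fam

set_option autoImplicit false

/-!
# Simultaneous approximation of finitely many numbers with predictable digits
-/

namespace Pool.Agent.L5helper52.PF

open Finset Filter Topology
open Pool.Agent.H831R3.LC (dig)
open Pool.Agent.R473.FP (run errors)

/-- in some base, for every `ε > 0` and all large `N` in `S`, an automaton with at most `N ^ θ` states
makes at most `ε log N` errors on the first `N` digits of `x` -/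
def Pred (S : Set ℕ) (θ x : ℝ) : Prop :=
  ∃ b : ℕ, 2 ≤ b ∧ ∀ ε : ℝ, 0 < ε → ∃ N₀ : ℕ, ∀ N ∈ S, N₀ ≤ N →
    ∃ (Q : ℕ) (δ : Fin Q → ℤ → Fin Q) (q₀ : Fin Q) (out : Fin Q → ℤ),
      (Q : ℝ) ≤ (N : ℝ) ^ θ ∧ (errors δ q₀ out (dig x b) N : ℝ) ≤ ε * Real.log N

/-- a uniform constant for finitely many denominators -/
lemma low_const {ι : Type} (x : ι → ℝ) (w : ℕ)
    (h : ∀ q : ℕ, 1 ≤ q → ∃ i, ∀ p : ℤ, (q : ℝ) * x i - p ≠ 0) (m : ℕ) :
    ∃ c : ℝ, 0 < c ∧ ∀ q : ℕ, 1 ≤ q → q < m → ∀ p : ι → ℤ, ∃ j, c ≤ (q : ℝ) ^ w * |q * x j - p j| := by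
  induction m with
  | zero => exact ⟨1, one_pos, fun q _ h2 => absurd h2 (Nat.not_lt_zero q)⟩
  | succ m ih =>
    obtain ⟨c, hc, ih⟩ := ih
    rcases Nat.eq_zero_or_pos m with hm | hm
    · exact ⟨1, one_pos, fun q h1 h2 => by omega⟩
    obtain ⟨i, hi⟩ := h m hm
    have hm0 : (0 : ℝ) < m := by exact_mod_cast hm
    obtain ⟨d, hd⟩ : ∃ d : ℝ, d = |(m : ℝ) * x i - round ((m : ℝ) * x i)| := ⟨_, rfl⟩
    have hd0 : 0 < d := by
      rw [hd]
      exact abs_pos.2 (hi _)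
    refine ⟨min c ((m : ℝ) ^ w * d), lt_min hc (by positivity), fun q h1 h2 p => ?_⟩
    rcases Nat.lt_succ_iff_lt_or_eq.1 h2 with h3 | h3
    · obtain ⟨j, hj⟩ := ih q h1 h3 p
      exact ⟨j, (min_le_left _ _).trans hj⟩
    · subst h3
      refine ⟨i, (min_le_right _ _).trans ?_⟩
      refine mul_le_mul_of_nonneg_left ?_ (by positivity)
      rw [hd]
      exact round_le _ _

/-- **Finitely many predictable numbers are simultaneously Liouville.** -/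
theorem sim_gen {ι : Type} [Fintype ι] [DecidableEq ι] {S : Set ℕ} (hS : S.Infinite) {θ : ℝ}
    (hθ1 : θ < 1) (x : ι → ℝ) (hx : ∀ i, Pred S θ (x i)) (w q0 : ℕ) :
    ∃ q : ℕ, q0 ≤ q ∧ 1 ≤ q ∧ ∀ i, ∃ p : ℤ, |(q : ℝ) * x i - p| < 1 / (q : ℝ) ^ w := by
  classical
  by_contra hcon
  push Not at hcon
  -- a simultaneous measure
  have hint : ∀ q : ℕ, 1 ≤ q → ∃ i, ∀ p : ℤ, (q : ℝ) * x i - p ≠ 0 := by
    intro q hq
    by_contra hall
    push Not at hall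
    choose p hp using hall
    obtain ⟨i, hi⟩ := hcon (q * (q0 + 1)) (by nlinarith) (by nlinarith)
    have h1 := hi ((q0 + 1) * p i)
    have e : ((q * (q0 + 1) : ℕ) : ℝ) * x i - (((q0 + 1) * p i : ℤ) : ℝ) =
        ((q0 : ℝ) + 1) * ((q : ℝ) * x i - p i) := by
      push_cast
      ring
    rw [e, hp i, mul_zero, abs_zero] at h1
    have h2 : (0 : ℝ) < ((q * (q0 + 1) : ℕ) : ℝ) := by
      have : 0 < q * (q0 + 1) := by positivity
      exact_mod_cast this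
    have h3 : 0 < 1 / (((q * (q0 + 1) : ℕ) : ℝ)) ^ w := by positivity
    linarith
  obtain ⟨c1, hc1, hlow⟩ := low_const x w hint (q0 + 1)
  obtain ⟨c0, hc0def⟩ : ∃ c0 : ℝ, c0 = min c1 1 := ⟨_, rfl⟩
  have hc0 : 0 < c0 := by rw [hc0def]; exact lt_min hc1 one_pos
  obtain ⟨μ, hμdef⟩ : ∃ μ : ℝ, μ = (w : ℝ) + 1 := ⟨_, rfl⟩
  have hμ : 1 ≤ μ := by
    rw [hμdef]
    have : (0 : ℝ) ≤ w := Nat.cast_nonneg w
    linarith
  have hM : ∀ q : ℕ, 1 ≤ q → ∀ p : ι → ℤ, ∃ j, c0 ≤ (q : ℝ) ^ (μ - 1) * |q * x j - p j| := by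
    intro q hq p
    have e : (q : ℝ) ^ (μ - 1) = (q : ℝ) ^ w := by
      rw [hμdef, add_sub_cancel_right, Real.rpow_natCast]
    rw [e]
    by_cases hlt : q < q0 + 1
    · obtain ⟨j, hj⟩ := hlow q hq hlt p
      exact ⟨j, by rw [hc0def]; exact (min_le_left _ _).trans hj⟩
    · obtain ⟨i, hi⟩ := hcon q (by omega) hq
      refine ⟨i, ?_⟩
      have h1 := hi (p i)
      have hq0 : (0 : ℝ) < (q : ℝ) ^ w := by
        have : (0 : ℝ) < q := by exact_mod_cast hq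
        positivity
      rw [div_le_iff₀ hq0] at h1
      rw [hc0def]
      refine (min_le_right _ _).trans ?_
      rw [mul_comm]
      exact h1
  -- the asymptotics
  obtain ⟨j0, -⟩ := hM 1 le_rfl (fun _ => 0)
  obtain ⟨m, hm⟩ : ∃ m : ℝ, m = Fintype.card ι := ⟨_, rfl⟩
  have hm1 : 1 ≤ m := by
    rw [hm]
    have : 0 < Fintype.card ι := Fintype.card_pos_iff.2 ⟨j0⟩
    exact_mod_cast this
  obtain ⟨K, hK⟩ : ∃ K : ℝ, K = m * μ := ⟨_, rfl⟩
  have hK1 : 1 ≤ K := by rw [hK]; nlinarith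
  have hlK : 0 ≤ Real.log K := Real.log_nonneg hK1
  obtain ⟨t, ht⟩ : ∃ t : ℝ, t = max θ 0 := ⟨_, rfl⟩
  have ht0 : 0 ≤ t := by rw [ht]; exact le_max_right _ _
  have ht1 : t < 1 := by rw [ht]; exact max_lt hθ1 one_pos
  obtain ⟨η, hη⟩ : ∃ η : ℝ, η = (1 - t) / 4 := ⟨_, rfl⟩
  have hη0 : 0 < η := by rw [hη]; linarith
  obtain ⟨ε, hε⟩ : ∃ ε : ℝ, ε = η / (m * (Real.log K + 1)) := ⟨_, rfl⟩
  have hε0 : 0 < ε := by rw [hε]; positivity
  choose b hb hbN using hx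
  choose N0 hN0 using fun i => hbN i ε hε0
  have hbR : ∀ j, (2 : ℝ) ≤ b j := fun j => by exact_mod_cast hb j
  have hlb0 : ∀ j, 0 < Real.log (b j) := fun j => Real.log_pos (by linarith [hbR j])
  obtain ⟨Λ, hΛ⟩ : ∃ Λ : ℝ, Λ = ∑ j, Real.log (b j) := ⟨_, rfl⟩
  have hΛ0 : 0 ≤ Λ := by rw [hΛ]; exact Finset.sum_nonneg fun j _ => (hlb0 j).le
  obtain ⟨C, hC⟩ : ∃ C : ℝ, C = Real.log 2 + |Real.log c0| := ⟨_, rfl⟩
  have hl2 : 0.69 < Real.log 2 := by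
    have h1 := Real.log_two_gt_d9
    linarith
  have hC0 : 0 ≤ C := by
    rw [hC]
    have h2 := abs_nonneg (Real.log c0)
    linarith
  obtain ⟨A, hA⟩ : ∃ A : ℝ, A = 4 * (μ * Λ * 2 + C) := ⟨_, rfl⟩
  have hlim := (tendsto_rpow_atTop hη0).eventually_gt_atTop A
  obtain ⟨Y0, hY0⟩ := Filter.eventually_atTop.1 hlim
  obtain ⟨N, hNS, hN⟩ := hS.exists_gt (max (max 1 ⌈Y0⌉₊) (∑ i, N0 i))
  have hN1 : 1 ≤ N := by
    have := (le_max_left 1 ⌈Y0⌉₊).trans (le_max_left _ (∑ i, N0 i))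
    omega
  have hNY : Y0 ≤ N := by
    have h1 : ⌈Y0⌉₊ ≤ N := by
      have := (le_max_right 1 ⌈Y0⌉₊).trans (le_max_left _ (∑ i, N0 i))
      omega
    exact (Nat.le_ceil _).trans (by exact_mod_cast h1)
  have hNN : ∀ i, N0 i ≤ N := fun i => by
    have h1 : N0 i ≤ ∑ i, N0 i := Finset.single_le_sum (f := N0) (fun _ _ => Nat.zero_le _)
      (Finset.mem_univ i)
    have := le_max_right (max 1 ⌈Y0⌉₊) (∑ i, N0 i)
    omega
  choose Q δ q₀ out hQ hE using fun i => hN0 i N hNS (hNN i)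
  obtain ⟨j, hj⟩ := Pool.Agent.R473.FV.separate x μ c0 hμ hc0 hM b hb Q δ q₀ out (fun _ => N)
  obtain ⟨E, hEE⟩ : ∃ E : ℕ, E = ∑ j, errors (δ j) (q₀ j) (out j) (dig (x j) (b j)) N := ⟨_, rfl⟩
  rw [← hEE, ← hm, ← hK, ← hC] at hj
  have hNR : (1 : ℝ) ≤ N := by exact_mod_cast hN1
  have hN0' : (0 : ℝ) < N := by linarith
  have hlN : 0 ≤ Real.log N := Real.log_nonneg hNR
  have hEb : (E : ℝ) ≤ m * (ε * Real.log N) := by
    rw [hEE]
    push_cast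
    calc ∑ j, (errors (δ j) (q₀ j) (out j) (dig (x j) (b j)) N : ℝ) ≤
          ∑ _j : ι, ε * Real.log N := Finset.sum_le_sum fun j _ => hE j
      _ = _ := by rw [Finset.sum_const, nsmul_eq_mul, hm]; simp
  have hEb2 : (E : ℝ) * (Real.log K + 1) ≤ η * Real.log N := by
    have h1 : 0 < Real.log K + 1 := by linarith
    calc (E : ℝ) * (Real.log K + 1) ≤ m * (ε * Real.log N) * (Real.log K + 1) :=
          mul_le_mul_of_nonneg_right hEb h1.le
      _ = η * Real.log N := by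
          rw [hε]
          field_simp
  have hE0 : (0 : ℝ) ≤ E := Nat.cast_nonneg E
  have hNη : 1 ≤ (N : ℝ) ^ η := Real.one_le_rpow hNR hη0.le
  have hKE : K ^ E ≤ (N : ℝ) ^ η := by
    rw [← Real.rpow_natCast K E]
    have h1 : K ^ (E : ℝ) = Real.exp (Real.log K * E) := Real.rpow_def_of_pos (by linarith) _
    have h2 : (N : ℝ) ^ η = Real.exp (Real.log N * η) := Real.rpow_def_of_pos hN0' _
    rw [h1, h2, Real.exp_le_exp]
    nlinarith
  have hlogN : η * Real.log N ≤ (N : ℝ) ^ η := by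
    have h1 := Real.log_le_rpow_div hN0'.le hη0
    rw [le_div_iff₀ hη0] at h1
    linarith
  have hE1 : (E : ℝ) + 1 ≤ 2 * (N : ℝ) ^ η := by nlinarith
  have hg : ∑ i ∈ range (E + 1), K ^ i ≤ (E + 1) * K ^ E := by
    calc ∑ i ∈ range (E + 1), K ^ i ≤ ∑ _i ∈ range (E + 1), K ^ E :=
          Finset.sum_le_sum fun i hi => pow_le_pow_right₀ hK1 (by
            have := mem_range.1 hi; omega)
      _ = _ := by rw [Finset.sum_const, nsmul_eq_mul, card_range]; push_cast; ring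
  have hNt : 1 ≤ (N : ℝ) ^ t := Real.one_le_rpow hNR ht0
  have hQs : μ * ∑ j, ((Q j : ℝ) + 1) * Real.log (b j) + C ≤ (μ * Λ * 2 + C) * (N : ℝ) ^ t := by
    have h1 : ∑ j, ((Q j : ℝ) + 1) * Real.log (b j) ≤ Λ * 2 * (N : ℝ) ^ t := by
      rw [hΛ, Finset.sum_mul, Finset.sum_mul]
      refine Finset.sum_le_sum fun i _ => ?_
      have h2 : (Q i : ℝ) ≤ (N : ℝ) ^ t := (hQ i).trans
        (Real.rpow_le_rpow_of_exponent_le hNR (by rw [ht]; exact le_max_left _ _))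
      have h3 := hlb0 i
      nlinarith
    have h2 := mul_le_mul_of_nonneg_left h1 (by linarith : (0 : ℝ) ≤ μ)
    nlinarith
  have hsum0 : 0 ≤ μ * ∑ j, ((Q j : ℝ) + 1) * Real.log (b j) + C := by
    have h1 : 0 ≤ ∑ j, ((Q j : ℝ) + 1) * Real.log (b j) :=
      Finset.sum_nonneg fun i _ => mul_nonneg (by positivity) (hlb0 i).le
    have : 0 ≤ μ * ∑ j, ((Q j : ℝ) + 1) * Real.log (b j) := mul_nonneg (by linarith) h1
    linarith
  have hB0 : 0 ≤ μ * Λ * 2 + C := by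
    have : 0 ≤ μ * Λ := mul_nonneg (by linarith) hΛ0
    linarith
  have hfin : N * Real.log 2 ≤ 2 * (μ * Λ * 2 + C) * ((N : ℝ) ^ η * (N : ℝ) ^ η * (N : ℝ) ^ t) := by
    have h1 : ∑ i ∈ range (E + 1), K ^ i ≤ (2 * (N : ℝ) ^ η) * (N : ℝ) ^ η := by
      refine hg.trans (mul_le_mul hE1 hKE (by positivity) (by positivity))
    calc N * Real.log 2 ≤ N * Real.log (b j) :=
          mul_le_mul_of_nonneg_left (Real.log_le_log (by norm_num) (hbR j)) hN0'.le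
      _ ≤ _ := hj
      _ ≤ ((2 * (N : ℝ) ^ η) * (N : ℝ) ^ η) * ((μ * Λ * 2 + C) * (N : ℝ) ^ t) :=
          mul_le_mul h1 hQs hsum0 (by positivity)
      _ = _ := by ring
  have e1 : (N : ℝ) ^ η * (N : ℝ) ^ η * (N : ℝ) ^ t = (N : ℝ) ^ (1 - 2 * η) := by
    rw [← Real.rpow_add hN0', ← Real.rpow_add hN0']
    congr 1
    rw [hη]; ring
  have e2 : (N : ℝ) ^ (1 - 2 * η) * (N : ℝ) ^ (2 * η) = N := by
    rw [← Real.rpow_add hN0', sub_add_cancel, Real.rpow_one]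
  have h3 : 0 < (N : ℝ) ^ (1 - 2 * η) := Real.rpow_pos_of_pos hN0' _
  have h4 : A < (N : ℝ) ^ (2 * η) := by
    have h5 := hY0 N hNY
    have h6 : (N : ℝ) ^ η ≤ (N : ℝ) ^ (2 * η) :=
      Real.rpow_le_rpow_of_exponent_le hNR (by linarith)
    linarith
  rw [e1] at hfin
  have h7 := mul_lt_mul_of_pos_left h4 h3
  rw [e2, hA] at h7
  have h8 : N * (1 / 2) < N * Real.log 2 := by
    refine mul_lt_mul_of_pos_left ?_ hN0'
    linarith
  nlinarith

end Pool.Agent.L5helper52.PF
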