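import Mathlib
import Pool.Agent.L5helper52.PF.Gen

set_option autoImplicit false

/-!
# The field generated by the numbers with predictable digits
-/

namespace Pool.Agent.L5helper52.PF

open Finset Filter Topology
open Pool.Agent.Q163.LE

lemma ap_of_approx (q : ℕ → ℕ) (hq : ∀ n, n + 2 ≤ q n) (u : ℝ)
    (h : ∀ n, ∃ p : ℤ, |(q n : ℝ) * u - p| < 1 / (q n : ℝ) ^ n) :
    Ap (fun n => Real.log (q n)) u := by
  refine ⟨2, by norm_num, fun E => ?_⟩
  filter_upwards [eventually_ge_atTop (⌈E⌉₊ + ⌈|u|⌉₊)] with n hn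
  obtain ⟨p, hp⟩ := h n
  have hqn : (n : ℝ) + 2 ≤ q n := by exact_mod_cast hq n
  have hn0 : (0 : ℝ) ≤ n := Nat.cast_nonneg n
  have hq0 : (0 : ℝ) < q n := by linarith
  have hq1 : (1 : ℝ) ≤ q n := by linarith
  have hnE : E ≤ n := by
    have h1 : (⌈E⌉₊ : ℝ) ≤ n := by exact_mod_cast (by omega : ⌈E⌉₊ ≤ n)
    exact (Nat.le_ceil E).trans h1
  have hnu : |u| ≤ n := by
    have h1 : (⌈|u|⌉₊ : ℝ) ≤ n := by exact_mod_cast (by omega : ⌈|u|⌉₊ ≤ n)
    exact (Nat.le_ceil _).trans h1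
  have hexp : Real.exp (2 * Real.log (q n)) = (q n : ℝ) * q n := by
    rw [two_mul, Real.exp_add, Real.exp_log hq0]
  have hle1 : 1 / (q n : ℝ) ^ n ≤ 1 := by
    rw [div_le_one (by positivity)]
    exact one_le_pow₀ hq1
  have hcast : (((q n : ℕ) : ℤ) : ℝ) = q n := by push_cast; rfl
  refine ⟨p, (q n : ℤ), ?_, ?_, ?_, ?_⟩
  · have : (q n : ℤ) ≠ 0 := by
      have := hq n
      omega
    exact this
  · rw [hexp]
    have h6 : |(p : ℝ)| ≤ |(q n : ℝ) * u| + |(q n : ℝ) * u - p| := by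
      have h7 := abs_sub ((q n : ℝ) * u) ((q n : ℝ) * u - p)
      rwa [sub_sub_cancel] at h7
    rw [abs_mul, Nat.abs_cast] at h6
    nlinarith [abs_nonneg u]
  · rw [hexp, hcast, abs_of_pos hq0]
    nlinarith
  · rw [hcast]
    have e : u - (p : ℝ) / q n = ((q n : ℝ) * u - p) / q n := by field_simp
    rw [e, abs_div, abs_of_pos hq0]
    have h1 : Real.exp (-(((n : ℝ) + 1) * Real.log (q n))) = 1 / (q n : ℝ) ^ n / q n := by
      rw [Real.exp_neg, ← Nat.cast_add_one, Real.exp_nat_mul, Real.exp_log hq0, pow_succ]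
      field_simp
    have h2 : Real.exp (-(((n : ℝ) + 1) * Real.log (q n))) ≤
        Real.exp (-(E * Real.log (q n))) := by
      refine Real.exp_le_exp.2 ?_
      have h3 : 0 ≤ Real.log (q n) := Real.log_nonneg hq1
      nlinarith
    refine le_trans ?_ h2
    rw [h1]
    exact div_le_div_of_nonneg_right hp.le hq0.le

/-- **The field generated by all predictable numbers is simultaneously Liouville.** -/
theorem sim_pred {S : Set ℕ} (hS : S.Infinite) {θ : ℝ} (hθ1 : θ < 1) :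
    SimLiouville (Subfield.closure {x | Pred S θ x}) := by
  classical
  refine sim_of_finite _ fun s hs => ?_
  have hex : ∀ x : ℝ, ∃ t : Finset ℝ, x ∈ s → (t : Set ℝ) ⊆ {x | Pred S θ x} ∧
      x ∈ Subfield.closure (t : Set ℝ) := by
    intro x
    by_cases hx : x ∈ s
    · obtain ⟨t, h1, h2⟩ := mem_closure_finite (hs x hx)
      exact ⟨t, fun _ => ⟨h1, h2⟩⟩
    · exact ⟨∅, fun h => absurd h hx⟩
  choose t ht using hex
  set U : Finset ℝ := s.biUnion t with hU
  have hUS : ∀ u ∈ U, Pred S θ u := by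
    intro u hu
    obtain ⟨j, hj1, hj⟩ := Finset.mem_biUnion.1 hu
    exact (ht j hj1).1 hj
  have hex2 := fun n : ℕ => sim_gen (ι := {u // u ∈ U}) hS hθ1 (fun u => (u : ℝ))
    (fun u => hUS u u.2) n (n + 2)
  choose q hq1 hq2 hq3 using hex2
  have htend : Tendsto (fun n => Real.log (q n)) atTop atTop := by
    refine Real.tendsto_log_atTop.comp (tendsto_natCast_atTop_atTop.comp ?_)
    exact tendsto_atTop_mono (fun n => (by have := hq1 n; omega : n ≤ q n)) tendsto_id
  refine ⟨fun n => Real.log (q n), htend, fun x hx => ?_⟩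
  have hle : Subfield.closure (U : Set ℝ) ≤ ApField (fun n => Real.log (q n)) htend := by
    rw [Subfield.closure_le]
    intro u hu
    exact ap_of_approx q hq1 u fun n => hq3 n ⟨u, hu⟩
  refine hle (Subfield.closure_mono ?_ (ht x hx).2)
  intro u hu
  exact Finset.mem_coe.2 (Finset.mem_biUnion.2 ⟨x, hx, hu⟩)

end Pool.Agent.L5helper52.PF
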